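import Pool.Agent.H.MP_7b724e_an.E

set_option autoImplicit false

namespace Pool.Agent.Results.MP_7b724e_an.Both
open scoped ComplexOrder

/-- The q-th power of a matrix by functional calculus. -/
noncomputable def pw {n : ℕ} (A : Matrix (Fin n) (Fin n) ℂ) (q : ℝ) : Matrix (Fin n) (Fin n) ℂ :=
  cfc (fun x : ℝ => x ^ q) A

/-- The right-hand side R_q(A, B). -/
noncomputable def R {n : ℕ} (q : ℝ) (A B : Matrix (Fin n) (Fin n) ℂ) : ℝ :=
  (pw A q).trace.re + (pw B q).trace.re +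
    (2 ^ q - 2) * (pw (pw A (1 / 2) * B * pw A (1 / 2)) (q / 2)).trace.re

theorem result (n : ℕ) (A B : Matrix (Fin n) (Fin n) ℂ) (hA : A.PosDef) (hB : B.PosDef) (q : ℝ) :
    (-2 < q → q < 0 → (pw (A + B) q).trace.re ≤ R q A B) ∧
    (3 < q → R q A B ≤ (pw (A + B) q).trace.re) :=
  ⟨Pool.Agent.H.MP_7b724e_an.q1 hA hB, Pool.Agent.H.MP_7b724e_an.q2 hA hB⟩

end Pool.Agent.Results.MP_7b724e_an.Both
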